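import Pool.Agent.Lib_helper61.DN.Defs
import Pool.Agent.Lib_helper45.SGD.Defs

/-!
# Zero density for the cusp forms of `GL_n`: the index set and the convolutions (definitions)
-/

set_option autoImplicit false

namespace Pool.Agent.DN

open MeasureTheory Complex Finset
open Pool.Agent.SGN Pool.Agent.BX

noncomputable section

/-- the positive rationals `m / k`, `k ≤ y`, `m ≤ R k` -/
def QB (R : ℝ) (y : ℕ) : Finset ℚ :=
  (Icc 1 y).biUnion fun k => (Icc 1 ⌊R * k⌋₊).image fun m : ℕ => (m : ℚ) / k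

/-- `∑_k c_k k^(-1/2) DD0(x + σ log k)` for the density `g` -/
def PG (lam c : ℕ → ℂ) (g : ℝ → ℂ) (σ : ℝ) (y : ℕ) (x : ℝ) : ℂ :=
  ∑ k ∈ Icc 1 y, c k * rt k * SGD.DD0 lam g (x + σ * Real.log k)

/-- the truncated sum of `PG` with `g = G0`, `σ = ± 1` -/
def RG (N LL R : ℝ) (lam c : ℕ → ℂ) (σ : ℝ) (y : ℕ) (z : ℝ) : ℂ :=
  ∑ k ∈ Icc 1 y, ∑ m ∈ Icc 1 ⌊R * (k : ℝ) ^ (-σ)⌋₊,
    SGD.gz N (z - LL / 2 + Real.log m + σ * Real.log k) * rt m * rt k * lam m * c k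

end

end Pool.Agent.DN
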